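import Mathlib

namespace Pool.Agent.Results.MP_7c4268_al.TorsionQuotient

/-- The defining relations that survive on `S` (the group `G` is written additively):
`{h, k} + {g, h + k} - {g, h} - {g + h, k}` whenever all four pairs lie in `S`. -/
def survivingRel {G : Type} [AddCommGroup G] (S : Set (Sym2 G)) : Set (FreeAbelianGroup S) :=
  {r | ∃ (g h k : G) (h1 : s(h, k) ∈ S) (h2 : s(g, h + k) ∈ S) (h3 : s(g, h) ∈ S)
      (h4 : s(g + h, k) ∈ S),
      r = FreeAbelianGroup.of ⟨s(h, k), h1⟩ + FreeAbelianGroup.of ⟨s(g, h + k), h2⟩ -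
        FreeAbelianGroup.of ⟨s(g, h), h3⟩ - FreeAbelianGroup.of ⟨s(g + h, k), h4⟩}

/-- Twenty unordered pairs in `ZMod 11`. -/
def S0 : Finset (Sym2 (ZMod 11)) :=
  {s(0, 6), s(1, 2), s(1, 3), s(1, 5), s(2, 3), s(2, 5), s(2, 7), s(3, 3), s(3, 5), s(3, 6),
    s(3, 8), s(5, 6), s(5, 7), s(6, 6), s(6, 9), s(7, 7), s(7, 8), s(7, 9), s(8, 9), s(9, 9)}

/-- A parity function on pairs. -/
def par (p : Sym2 (ZMod 11)) : ZMod 2 :=
  if p ∈ ({s(0, 6), s(6, 6), s(6, 9), s(8, 9)} : Finset (Sym2 (ZMod 11))) then 1 else 0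

/-- Basis elements, extended by zero. -/
def E (p : Sym2 (ZMod 11)) : FreeAbelianGroup (S0 : Set (Sym2 (ZMod 11))) :=
  if h : p ∈ S0 then FreeAbelianGroup.of ⟨p, h⟩ else 0

lemma par_rel : ∀ g h k : ZMod 11, s(h, k) ∈ S0 → s(g, h + k) ∈ S0 → s(g, h) ∈ S0 →
    s(g + h, k) ∈ S0 → par s(h, k) + par s(g, h + k) - par s(g, h) - par s(g + h, k) = 0 := by
  decide +kernel

theorem result : ∃ S : Set (Sym2 (ZMod 11)),
    ¬ Module.Free ℤ (FreeAbelianGroup S ⧸ AddSubgroup.closure (survivingRel S)) := by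
  refine ⟨S0, fun hfree => ?_⟩
  set N := AddSubgroup.closure (survivingRel (S0 : Set (Sym2 (ZMod 11))))
  have rel : ∀ (g h k : ZMod 11) (a b c d : Sym2 (ZMod 11)), a ∈ S0 → b ∈ S0 → c ∈ S0 → d ∈ S0 →
      a = s(h, k) → b = s(g, h + k) → c = s(g, h) → d = s(g + h, k) →
      E a + E b - E c - E d ∈ N := by
    rintro g h k _ _ _ _ h1 h2 h3 h4 rfl rfl rfl rfl
    refine AddSubgroup.subset_closure ⟨g, h, k, h1, h2, h3, h4, ?_⟩
    simp only [E, dif_pos h1, dif_pos h2, dif_pos h3, dif_pos h4]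
  have r0 : E s(2, 3) + E s(1, 5) - E s(1, 2) - E s(3, 3) ∈ N :=
    rel 1 2 3 _ _ _ _ (by decide) (by decide) (by decide) (by decide) (by decide) (by decide)
      (by decide) (by decide)
  have r1 : E s(5, 7) + E s(1, 2) - E s(2, 5) - E s(7, 7) ∈ N :=
    rel 2 5 7 _ _ _ _ (by decide) (by decide) (by decide) (by decide) (by decide) (by decide)
      (by decide) (by decide)
  have r2 : E s(7, 7) + E s(2, 3) - E s(2, 7) - E s(7, 9) ∈ N :=
    rel 2 7 7 _ _ _ _ (by decide) (by decide) (by decide) (by decide) (by decide) (by decide)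
      (by decide) (by decide)
  have r3 : E s(7, 9) + E s(2, 5) - E s(2, 7) - E s(9, 9) ∈ N :=
    rel 2 7 9 _ _ _ _ (by decide) (by decide) (by decide) (by decide) (by decide) (by decide)
      (by decide) (by decide)
  have r4 : E s(3, 5) + E s(3, 8) - E s(3, 3) - E s(5, 6) ∈ N :=
    rel 3 3 5 _ _ _ _ (by decide) (by decide) (by decide) (by decide) (by decide) (by decide)
      (by decide) (by decide)
  have r5 : E s(5, 7) + E s(1, 3) - E s(3, 5) - E s(7, 8) ∈ N :=
    rel 3 5 7 _ _ _ _ (by decide) (by decide) (by decide) (by decide) (by decide) (by decide)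
      (by decide) (by decide)
  have r6 : E s(6, 6) + E s(1, 3) - E s(3, 6) - E s(6, 9) ∈ N :=
    rel 3 6 6 _ _ _ _ (by decide) (by decide) (by decide) (by decide) (by decide) (by decide)
      (by decide) (by decide)
  have r7 : E s(6, 6) + E s(1, 5) - E s(5, 6) - E s(0, 6) ∈ N :=
    rel 5 6 6 _ _ _ _ (by decide) (by decide) (by decide) (by decide) (by decide) (by decide)
      (by decide) (by decide)
  have r8 : E s(3, 8) + E s(0, 6) - E s(3, 6) - E s(8, 9) ∈ N :=
    rel 6 3 8 _ _ _ _ (by decide) (by decide) (by decide) (by decide) (by decide) (by decide)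
      (by decide) (by decide)
  have r9 : E s(9, 9) + E s(7, 8) - E s(8, 9) - E s(6, 9) ∈ N :=
    rel 8 9 9 _ _ _ _ (by decide) (by decide) (by decide) (by decide) (by decide) (by decide)
      (by decide) (by decide)
  let x := E s(1, 3) + E s(1, 5) + E s(2, 3) - E s(2, 7) - E s(3, 3) - E s(3, 6) + E s(3, 8) - E s(5, 6) + E s(5, 7) + E s(6, 6) - E s(6, 9) - E s(8, 9)
  have h2x : (2 : ℤ) • x ∈ N := by
    convert N.add_mem (N.add_mem (N.add_mem (N.add_mem (N.add_mem (N.add_mem (N.add_mem (N.add_mem (N.add_mem (r0) r1) r2) r3) r4) r5) r6) r7) r8) r9 using 1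
    simp only [x]; abel
  let φ : FreeAbelianGroup (S0 : Set (Sym2 (ZMod 11))) →+ ZMod 2 :=
    FreeAbelianGroup.lift fun p => par p.1
  have hφ : N ≤ φ.ker := by
    rw [AddSubgroup.closure_le]
    rintro _ ⟨g, h, k, h1, h2, h3, h4, rfl⟩
    simp only [SetLike.mem_coe, AddMonoidHom.mem_ker, map_sub, map_add, φ,
      FreeAbelianGroup.lift_apply_of]
    exact par_rel g h k h1 h2 h3 h4
  have hE : ∀ p, φ (E p) = if p ∈ S0 then par p else 0 := by
    intro p
    unfold E
    split_ifs <;> simp [φ]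
  have hx : x ∉ N := by
    intro h
    have h1 : φ x = 0 := hφ h
    simp only [x, map_add, map_sub, hE] at h1
    revert h1; decide +kernel
  have h0 : (2 : ℤ) • (QuotientAddGroup.mk x : _ ⧸ N) = 0 := by
    rw [← QuotientAddGroup.mk_zsmul, QuotientAddGroup.eq_zero_iff]; exact h2x
  rw [smul_eq_zero] at h0
  rcases h0 with h0 | h0
  · norm_num at h0
  · exact hx ((QuotientAddGroup.eq_zero_iff x).1 h0)

end Pool.Agent.Results.MP_7c4268_al.TorsionQuotient
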